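import Pool.Agent.U378.TM.Codes

/-! The maximal rules. -/

set_option autoImplicit false
set_option maxRecDepth 100000

namespace Pool.Agent.U378.TM.Core

theorem taut (e : ℕ → Bool) : ((e 0) ||
    ((e 1) ||
    ((e 2) ||
    ((e 3) ||
    ((e 4 && e 5) ||
    ((e 6 && e 8) ||
    ((e 6 && e 13) ||
    ((e 7) ||
    ((e 8 && e 11) ||
    ((e 9) ||
    ((e 10) ||
    ((e 11 && e 13) ||
    ((e 12) ||
    ((e 14) ||
    ((!e 0 && !e 1 && !e 2 && !e 3 && !e 5 && !e 7 && !e 8 && !e 9 && !e 10 && !e 12 && !e 13 && !e 14) ||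
    ((!e 0 && !e 1 && !e 2 && !e 3 && !e 4 && !e 7 && !e 8 && !e 9 && !e 10 && !e 12 && !e 13 && !e 14) ||
    ((!e 0 && !e 1 && !e 2 && !e 3 && !e 5 && !e 6 && !e 7 && !e 9 && !e 10 && !e 11 && !e 12 && !e 14) ||
    (!e 0 && !e 1 && !e 2 && !e 3 && !e 4 && !e 6 && !e 7 && !e 9 && !e 10 && !e 11 && !e 12 && !e 14)))))))))))))))))) = true := by
  generalize e 0 = b0
  generalize e 1 = b1
  generalize e 2 = b2
  generalize e 3 = b3
  generalize e 4 = b4
  generalize e 5 = b5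
  generalize e 6 = b6
  generalize e 7 = b7
  generalize e 8 = b8
  generalize e 9 = b9
  generalize e 10 = b10
  generalize e 11 = b11
  generalize e 12 = b12
  generalize e 13 = b13
  generalize e 14 = b14
  generalize e 15 = b15
  revert b0 b1 b2 b3 b4 b5 b6 b7 b8 b9 b10 b11 b12 b13 b14 b15
  decide +kernel

end Pool.Agent.U378.TM.Core
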