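import Pool.Agent.U378.TM.Bound
import Pool.Agent.U378.TM.CTaut

/-! Rules and the 3-graphs encoded with them. -/

set_option autoImplicit false
set_option maxRecDepth 100000
open Finset

namespace Pool.Agent.U378.TM.Core

open Pool.Agent.U378.TM

theorem tp_inv : ∀ c < 64, tp (s12 c) = tp c ∧ tp (s23 c) = tp c := by decide +kernel
theorem tp_lt : ∀ c < 64, tp c < 16 := by decide +kernel
theorem orb : ∀ c < 64, ∀ c' < 64, tp c' = tp c → c' = c ∨ c' = s12 c ∨ c' = s23 c ∨
    c' = s12 (s23 c) ∨ c' = s23 (s12 c) ∨ c' = s12 (s23 (s12 c)) := by decide +kernel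

theorem rv_rv : ∀ x < 4, rv (rv x) = x := by decide +kernel

/-- `e` is an edge: some enumeration has a code in the rule `F` -/
def Edge (F : ℕ → Prop) {n : ℕ} (rel : Fin n → Fin n → ℕ) (e : Finset (Fin n)) : Prop :=
  ∃ f : Fin 3 → Fin n, Function.Injective f ∧ (∀ i, f i ∈ e) ∧ F (c3 rel (f 0) (f 1) (f 2))

/-- the types of edges -/
def EE (F : ℕ → Prop) (t : ℕ) : Prop := ∃ c < 64, tp c = t ∧ F c

section
variable {V : Type} {rel : V → V → ℕ} (hr : Rel4 rel)
include hr

theorem tp12 {a b : V} (h : a ≠ b) (c : V) : tp (c3 rel b a c) = tp (c3 rel a b c) := by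
  rw [K12 hr h]
  exact (tp_inv _ (c3_lt hr _ _ _)).1

theorem tp23 (a : V) {b c : V} (h : b ≠ c) : tp (c3 rel a c b) = tp (c3 rel a b c) := by
  rw [K23 hr a h]
  exact (tp_inv _ (c3_lt hr _ _ _)).2
end

theorem edge_type {F : ℕ → Prop} {n : ℕ} {rel : Fin n → Fin n → ℕ} (hr : Rel4 rel)
    {a b c : Fin n} (hab : a ≠ b) (hac : a ≠ c) (hbc : b ≠ c)
    (h : Edge F rel {a, b, c}) : EE F (tp (c3 rel a b c)) := by
  obtain ⟨f, hf, hm, hF⟩ := h
  refine ⟨_, c3_lt hr (f 0) (f 1) (f 2), ?_, hF⟩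
  have m0 := hm 0
  have m1 := hm 1
  have m2 := hm 2
  simp only [mem_insert, mem_singleton] at m0 m1 m2
  have n01 : f 0 ≠ f 1 := fun h => absurd (hf h) (by decide)
  have n02 : f 0 ≠ f 2 := fun h => absurd (hf h) (by decide)
  have n12 : f 1 ≠ f 2 := fun h => absurd (hf h) (by decide)
  rcases m0 with m0 | m0 | m0 <;> rcases m1 with m1 | m1 | m1 <;> rcases m2 with m2 | m2 | m2 <;>
    first
    | exact absurd (m0.trans m1.symm) n01
    | exact absurd (m0.trans m2.symm) n02
    | exact absurd (m1.trans m2.symm) n12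
    | rw [m0, m1, m2]
  · rw [tp23 hr a hbc]
  · rw [tp12 hr hab c]
  · rw [tp23 hr b hac, tp12 hr hab c]
  · rw [tp12 hr hac b, tp23 hr a hbc]
  · rw [tp12 hr hbc a, tp23 hr b hac, tp12 hr hab c]

theorem edge_of {F : ℕ → Prop} {n : ℕ} {rel : Fin n → Fin n → ℕ}
    {a b c : Fin n} (hab : a ≠ b) (hac : a ≠ c) (hbc : b ≠ c) {e : Finset (Fin n)} (ha : a ∈ e)
    (hb : b ∈ e) (hc : c ∈ e) (h : F (c3 rel a b c)) : Edge F rel e := by
  have hf : Function.Injective ![a, b, c] := by
    intro i j hij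
    fin_cases i <;> fin_cases j <;> simp_all
  refine ⟨![a, b, c], hf, ?_, h⟩
  intro i
  fin_cases i
  · exact ha
  · exact hb
  · exact hc

theorem type_edge {F : ℕ → Prop} {n : ℕ} {rel : Fin n → Fin n → ℕ} (hr : Rel4 rel)
    {a b c : Fin n} (hab : a ≠ b) (hac : a ≠ c) (hbc : b ≠ c)
    (h : EE F (tp (c3 rel a b c))) : Edge F rel {a, b, c} := by
  obtain ⟨c', hc', ht, hF⟩ := h
  have ma : a ∈ ({a, b, c} : Finset (Fin n)) := by simp
  have mb : b ∈ ({a, b, c} : Finset (Fin n)) := by simp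
  have mc : c ∈ ({a, b, c} : Finset (Fin n)) := by simp
  rcases orb _ (c3_lt hr a b c) _ hc' ht with h | h | h | h | h | h <;> rw [h] at hF
  · exact edge_of hab hac hbc ma mb mc hF
  · rw [← K12 hr hab c] at hF
    exact edge_of hab.symm hbc hac mb ma mc hF
  · rw [← K23 hr a hbc] at hF
    exact edge_of hac hab hbc.symm ma mc mb hF
  · rw [← K23 hr a hbc, ← K12 hr hac b] at hF
    exact edge_of hac.symm hbc.symm hab mc ma mb hF
  · rw [← K12 hr hab c, ← K23 hr b hac] at hF
    exact edge_of hbc hab.symm hac.symm mb mc ma hF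
  · rw [← K12 hr hab c, ← K23 hr b hac, ← K12 hr hbc a] at hF
    exact edge_of hbc.symm hac.symm hab.symm mc mb ma hF

/-- four points with given relations -/
def r4 (x y z u v w : ℕ) : Fin 4 → Fin 4 → ℕ :=
  ![![0, x, y, u], ![rv x, 0, z, v], ![rv y, rv z, 0, w], ![rv u, rv v, rv w, 0]]

/-- every structure on four points has a triple which is not an edge -/
def Free4 (F : ℕ → Prop) : Prop := ∀ rel : Fin 4 → Fin 4 → ℕ, Rel4 rel →
  ∃ s : Finset (Fin 4), s.card = 3 ∧ ¬ Edge F rel s

theorem sets4 : ∀ s : Finset (Fin 4), s.card = 3 →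
    s = {0, 1, 2} ∨ s = {0, 1, 3} ∨ s = {0, 2, 3} ∨ s = {1, 2, 3} := by decide

theorem wit {F : ℕ → Prop} (hU : Free4 F) {x y z u v w t0 t1 t2 t3 : ℕ} (hx : x < 4) (hy : y < 4)
    (hz : z < 4) (hu : u < 4) (hv : v < 4) (hw : w < 4) (h0 : tp (q4 x y z) = t0)
    (h1 : tp (q4 x u v) = t1) (h2 : tp (q4 y u w) = t2) (h3 : tp (q4 z v w) = t3)
    (e0 : EE F t0) (e1 : EE F t1) (e2 : EE F t2) (e3 : EE F t3) : False := by
  have hT : Rel4 (r4 x y z u v w) := by
    refine ⟨fun i j => ?_, fun i j hij => ?_⟩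
    · fin_cases i <;> fin_cases j <;> first
        | exact Nat.zero_lt_succ 3
        | assumption
        | exact rv_lt _
    · fin_cases i <;> fin_cases j <;> first
        | exact absurd rfl hij
        | rfl
        | exact (rv_rv _ hx).symm
        | exact (rv_rv _ hy).symm
        | exact (rv_rv _ hz).symm
        | exact (rv_rv _ hu).symm
        | exact (rv_rv _ hv).symm
        | exact (rv_rv _ hw).symm
  have c012 : c3 (r4 x y z u v w) (0 : Fin 4) 1 2 = q4 x y z := rfl
  have c013 : c3 (r4 x y z u v w) (0 : Fin 4) 1 3 = q4 x u v := rfl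
  have c023 : c3 (r4 x y z u v w) (0 : Fin 4) 2 3 = q4 y u w := rfl
  have c123 : c3 (r4 x y z u v w) (1 : Fin 4) 2 3 = q4 z v w := rfl
  obtain ⟨s, hs, hn⟩ := hU _ hT
  rcases sets4 s hs with h | h | h | h <;> rw [h] at hn
  · exact hn (type_edge hT (by decide) (by decide) (by decide) (by rw [c012, h0]; exact e0))
  · exact hn (type_edge hT (by decide) (by decide) (by decide) (by rw [c013, h1]; exact e1))
  · exact hn (type_edge hT (by decide) (by decide) (by decide) (by rw [c023, h2]; exact e2))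
  · exact hn (type_edge hT (by decide) (by decide) (by decide) (by rw [c123, h3]; exact e3))

open scoped Classical in
/-- the types of the edges lie in one of the maximal rules -/
theorem exists_rule {F : ℕ → Prop} (hU : Free4 F) :
    ∃ M ∈ RL, ∀ t < 16, EE F t → bit M.1 t = 1 := by
  have h := taut (fun t => decide (EE F t))
  simp only [Bool.or_eq_true, Bool.and_eq_true, decide_eq_true_eq, Bool.not_eq_true',
    decide_eq_false_iff_not] at h
  rcases h with h | h | h | h | h | h | h | h | h | h | h | h | h | h | h | h | h | h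
  · exact (wit hU (x := 0) (y := 0) (z := 0) (u := 0) (v := 0) (w := 0) (by norm_num) (by norm_num)
      (by norm_num) (by norm_num) (by norm_num) (by norm_num) (t0 := 0) (t1 := 0) (t2 := 0) (t3 := 0) (by decide +kernel)
      (by decide +kernel) (by decide +kernel) (by decide +kernel) h h h h).elim
  · exact (wit hU (x := 0) (y := 0) (z := 1) (u := 1) (v := 0) (w := 0) (by norm_num) (by norm_num)
      (by norm_num) (by norm_num) (by norm_num) (by norm_num) (t0 := 1) (t1 := 1) (t2 := 1) (t3 := 1) (by decide +kernel)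
      (by decide +kernel) (by decide +kernel) (by decide +kernel) h h h h).elim
  · exact (wit hU (x := 0) (y := 0) (z := 2) (u := 2) (v := 0) (w := 0) (by norm_num) (by norm_num)
      (by norm_num) (by norm_num) (by norm_num) (by norm_num) (t0 := 2) (t1 := 2) (t2 := 2) (t3 := 2) (by decide +kernel)
      (by decide +kernel) (by decide +kernel) (by decide +kernel) h h h h).elim
  · exact (wit hU (x := 0) (y := 1) (z := 1) (u := 1) (v := 1) (w := 0) (by norm_num) (by norm_num)
      (by norm_num) (by norm_num) (by norm_num) (by norm_num) (t0 := 3) (t1 := 3) (t2 := 3) (t3 := 3) (by decide +kernel)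
      (by decide +kernel) (by decide +kernel) (by decide +kernel) h h h h).elim
  · obtain ⟨a0, a1⟩ := h
    exact (wit hU (x := 0) (y := 1) (z := 2) (u := 2) (v := 1) (w := 0) (by norm_num) (by norm_num)
      (by norm_num) (by norm_num) (by norm_num) (by norm_num) (t0 := 4) (t1 := 4) (t2 := 5) (t3 := 5) (by decide +kernel)
      (by decide +kernel) (by decide +kernel) (by decide +kernel) a0 a0 a1 a1).elim
  · obtain ⟨a0, a1⟩ := h
    exact (wit hU (x := 0) (y := 2) (z := 2) (u := 2) (v := 2) (w := 0) (by norm_num) (by norm_num)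
      (by norm_num) (by norm_num) (by norm_num) (by norm_num) (t0 := 6) (t1 := 6) (t2 := 8) (t3 := 8) (by decide +kernel)
      (by decide +kernel) (by decide +kernel) (by decide +kernel) a0 a0 a1 a1).elim
  · obtain ⟨a0, a1⟩ := h
    exact (wit hU (x := 0) (y := 2) (z := 2) (u := 2) (v := 2) (w := 1) (by norm_num) (by norm_num)
      (by norm_num) (by norm_num) (by norm_num) (by norm_num) (t0 := 6) (t1 := 6) (t2 := 13) (t3 := 13) (by decide +kernel)
      (by decide +kernel) (by decide +kernel) (by decide +kernel) a0 a0 a1 a1).elim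
  · exact (wit hU (x := 0) (y := 2) (z := 3) (u := 3) (v := 2) (w := 0) (by norm_num) (by norm_num)
      (by norm_num) (by norm_num) (by norm_num) (by norm_num) (t0 := 7) (t1 := 7) (t2 := 7) (t3 := 7) (by decide +kernel)
      (by decide +kernel) (by decide +kernel) (by decide +kernel) h h h h).elim
  · obtain ⟨a0, a1⟩ := h
    exact (wit hU (x := 0) (y := 3) (z := 3) (u := 3) (v := 3) (w := 1) (by norm_num) (by norm_num)
      (by norm_num) (by norm_num) (by norm_num) (by norm_num) (t0 := 8) (t1 := 8) (t2 := 11) (t3 := 11) (by decide +kernel)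
      (by decide +kernel) (by decide +kernel) (by decide +kernel) a0 a0 a1 a1).elim
  · exact (wit hU (x := 1) (y := 1) (z := 1) (u := 1) (v := 1) (w := 1) (by norm_num) (by norm_num)
      (by norm_num) (by norm_num) (by norm_num) (by norm_num) (t0 := 9) (t1 := 9) (t2 := 9) (t3 := 9) (by decide +kernel)
      (by decide +kernel) (by decide +kernel) (by decide +kernel) h h h h).elim
  · exact (wit hU (x := 1) (y := 1) (z := 2) (u := 2) (v := 1) (w := 1) (by norm_num) (by norm_num)
      (by norm_num) (by norm_num) (by norm_num) (by norm_num) (t0 := 10) (t1 := 10) (t2 := 10) (t3 := 10) (by decide +kernel)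
      (by decide +kernel) (by decide +kernel) (by decide +kernel) h h h h).elim
  · obtain ⟨a0, a1⟩ := h
    exact (wit hU (x := 1) (y := 2) (z := 2) (u := 2) (v := 2) (w := 1) (by norm_num) (by norm_num)
      (by norm_num) (by norm_num) (by norm_num) (by norm_num) (t0 := 11) (t1 := 11) (t2 := 13) (t3 := 13) (by decide +kernel)
      (by decide +kernel) (by decide +kernel) (by decide +kernel) a0 a0 a1 a1).elim
  · exact (wit hU (x := 1) (y := 2) (z := 3) (u := 3) (v := 2) (w := 1) (by norm_num) (by norm_num)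
      (by norm_num) (by norm_num) (by norm_num) (by norm_num) (t0 := 12) (t1 := 12) (t2 := 12) (t3 := 12) (by decide +kernel)
      (by decide +kernel) (by decide +kernel) (by decide +kernel) h h h h).elim
  · exact (wit hU (x := 2) (y := 2) (z := 2) (u := 2) (v := 2) (w := 2) (by norm_num) (by norm_num)
      (by norm_num) (by norm_num) (by norm_num) (by norm_num) (t0 := 14) (t1 := 14) (t2 := 14) (t3 := 14) (by decide +kernel)
      (by decide +kernel) (by decide +kernel) (by decide +kernel) h h h h).elim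
  · obtain ⟨⟨⟨⟨⟨⟨⟨⟨⟨⟨⟨a0, a1⟩, a2⟩, a3⟩, a5⟩, a7⟩, a8⟩, a9⟩, a10⟩, a12⟩, a13⟩, a14⟩ := h
    refine ⟨(34896, 0, 34896), by decide +kernel, fun t ht he => ?_⟩
    interval_cases t <;> first | rfl | exact absurd he (by assumption)
  · obtain ⟨⟨⟨⟨⟨⟨⟨⟨⟨⟨⟨a0, a1⟩, a2⟩, a3⟩, a4⟩, a7⟩, a8⟩, a9⟩, a10⟩, a12⟩, a13⟩, a14⟩ := h
    refine ⟨(34912, 2, 34896), by decide +kernel, fun t ht he => ?_⟩
    interval_cases t <;> first | rfl | exact absurd he (by assumption)
  · obtain ⟨⟨⟨⟨⟨⟨⟨⟨⟨⟨⟨a0, a1⟩, a2⟩, a3⟩, a5⟩, a6⟩, a7⟩, a9⟩, a10⟩, a11⟩, a12⟩, a14⟩ := h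
    refine ⟨(41232, 3, 34896), by decide +kernel, fun t ht he => ?_⟩
    interval_cases t <;> first | rfl | exact absurd he (by assumption)
  · obtain ⟨⟨⟨⟨⟨⟨⟨⟨⟨⟨⟨a0, a1⟩, a2⟩, a3⟩, a4⟩, a6⟩, a7⟩, a9⟩, a10⟩, a11⟩, a12⟩, a14⟩ := h
    refine ⟨(41248, 1, 34896), by decide +kernel, fun t ht he => ?_⟩
    interval_cases t <;> first | rfl | exact absurd he (by assumption)

/-- **the bound for every rule** -/
theorem rule_bound {F : ℕ → Prop} (hU : Free4 F) {n : ℕ} {rel : Fin n → Fin n → ℕ} (hr : Rel4 rel)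
    {H : Finset (Finset (Fin n))} (hH : ∀ e ∈ H, e.card = 3)
    (hE : ∀ e ∈ H, Edge F rel e) : 54 * H.card ≤ 5 * n ^ 3 := by
  obtain ⟨M, hM, h⟩ := exists_rule hU
  refine max_bound hH hr hM fun x y z hxy hxz hyz hm => ?_
  exact h _ (tp_lt _ (c3_lt hr _ _ _)) (edge_type hr hxy hxz hyz (hE _ hm))

end Pool.Agent.U378.TM.Core
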