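import Pool.Agent.U378.TM.Perm

/-! Blow-ups remove the error term of a bound for the number of edges. -/

set_option autoImplicit false
open Finset
open scoped Classical

namespace Pool.Agent.U378.TM

/-- number of the ordered triples of distinct vertices with code in `R` -/
noncomputable def cnt (R : ℕ → Prop) {V : Type} [Fintype V] (rel : V → V → ℕ) : ℝ :=
  ∑ a : V, ∑ b : V, ∑ c : V, if a ≠ b ∧ a ≠ c ∧ b ≠ c ∧ R (c3 rel a b c) then (1 : ℝ) else 0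

/-- a blow-up -/
noncomputable def blw {V : Type} (rel : V → V → ℕ) (m : ℕ) (p q : V × Fin m) : ℕ :=
  if p.1 = q.1 then 0 else rel p.1 q.1

theorem blw_rel {V : Type} {rel : V → V → ℕ} (hr : Rel4 rel) (m : ℕ) : Rel4 (blw rel m) where
  lt := fun p q => by
    unfold blw
    split_ifs
    · norm_num
    · exact hr.lt _ _
  rev := fun p q hpq => by
    unfold blw
    by_cases h : p.1 = q.1
    · rw [if_pos h, if_pos h.symm]
      rfl
    · rw [if_neg h, if_neg (fun h' => h h'.symm)]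
      exact hr.rev _ _ h

theorem sum_fst {V : Type} [Fintype V] (m : ℕ) (f : V → ℝ) :
    ∑ p : V × Fin m, f p.1 = m * ∑ a : V, f a := by
  rw [Fintype.sum_prod_type, mul_sum]
  refine sum_congr rfl fun a _ => ?_
  show ∑ _y : Fin m, f a = m * f a
  rw [sum_const, card_univ, Fintype.card_fin, nsmul_eq_mul]

theorem blw_cnt {V : Type} [Fintype V] (R : ℕ → Prop) (rel : V → V → ℕ) (m : ℕ) :
    (m : ℝ) ^ 3 * cnt R rel ≤
      ∑ a : V × Fin m, ∑ b : V × Fin m, ∑ c : V × Fin m,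
        (if R (c3 (blw rel m) a b c) then (1 : ℝ) else 0) := by
  have h1 : (m : ℝ) ^ 3 * cnt R rel = ∑ a : V × Fin m, ∑ b : V × Fin m, ∑ c : V × Fin m,
      (if a.1 ≠ b.1 ∧ a.1 ≠ c.1 ∧ b.1 ≠ c.1 ∧ R (c3 rel a.1 b.1 c.1) then (1 : ℝ) else 0) := by
    have e1 : ∀ a b : V, (∑ c : V × Fin m,
        (if a ≠ b ∧ a ≠ c.1 ∧ b ≠ c.1 ∧ R (c3 rel a b c.1) then (1 : ℝ) else 0))
        = m * ∑ c : V, (if a ≠ b ∧ a ≠ c ∧ b ≠ c ∧ R (c3 rel a b c) then (1 : ℝ) else 0) :=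
      fun a b => sum_fst m fun c => if a ≠ b ∧ a ≠ c ∧ b ≠ c ∧ R (c3 rel a b c) then (1 : ℝ) else 0
    have e2 : ∀ a : V, (∑ b : V × Fin m, (m : ℝ) * ∑ c : V,
        (if a ≠ b.1 ∧ a ≠ c ∧ b.1 ≠ c ∧ R (c3 rel a b.1 c) then (1 : ℝ) else 0))
        = m * ∑ b : V, m * ∑ c : V,
          (if a ≠ b ∧ a ≠ c ∧ b ≠ c ∧ R (c3 rel a b c) then (1 : ℝ) else 0) :=
      fun a => sum_fst m fun b => m * ∑ c : V,
        if a ≠ b ∧ a ≠ c ∧ b ≠ c ∧ R (c3 rel a b c) then (1 : ℝ) else 0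
    have e3 := sum_fst m fun a : V => m * ∑ b : V, m * ∑ c : V,
        if a ≠ b ∧ a ≠ c ∧ b ≠ c ∧ R (c3 rel a b c) then (1 : ℝ) else 0
    simp only [e1, e2]
    rw [e3]
    unfold cnt
    simp only [← mul_sum]
    ring
  rw [h1]
  refine sum_le_sum fun a _ => sum_le_sum fun b _ => sum_le_sum fun c _ => ?_
  by_cases h : a.1 ≠ b.1 ∧ a.1 ≠ c.1 ∧ b.1 ≠ c.1 ∧ R (c3 rel a.1 b.1 c.1)
  · rw [if_pos h]
    have h2 : c3 (blw rel m) a b c = c3 rel a.1 b.1 c.1 := by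
      unfold c3 blw
      rw [if_neg h.1, if_neg h.2.1, if_neg h.2.2.1]
    rw [h2, if_pos h.2.2.2]
  · rw [if_neg h]
    split_ifs <;> norm_num

theorem blow {R : ℕ → Prop} {C D : ℝ}
    (h : ∀ (V : Type) [Fintype V], 0 < Fintype.card V → ∀ rel : V → V → ℕ, Rel4 rel →
      ∑ a : V, ∑ b : V, ∑ c : V, (if R (c3 rel a b c) then (1 : ℝ) else 0)
        ≤ D * (Fintype.card V : ℝ) ^ 3 + C * (Fintype.card V : ℝ) ^ 2)
    (V : Type) [Fintype V] (rel : V → V → ℕ) (hr : Rel4 rel) :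
    cnt R rel ≤ D * (Fintype.card V : ℝ) ^ 3 := by
  rcases Nat.eq_zero_or_pos (Fintype.card V) with h0 | h0
  · have : IsEmpty V := Fintype.card_eq_zero_iff.1 h0
    unfold cnt
    rw [h0]
    simp
  set n : ℝ := (Fintype.card V : ℝ) with hn
  have hn0 : 0 < n := by rw [hn]; exact_mod_cast h0
  by_contra hcon
  push Not at hcon
  obtain ⟨m, hm⟩ := exists_nat_gt (|C| * n ^ 2 / (cnt R rel - D * n ^ 3))
  have hd : 0 < cnt R rel - D * n ^ 3 := by linarith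
  have hm0 : (0 : ℝ) < m := lt_of_le_of_lt (by positivity) hm
  have h1 := h (V × Fin m) (by
    rw [Fintype.card_prod, Fintype.card_fin]
    exact Nat.mul_pos h0 (by exact_mod_cast hm0)) (blw rel m) (blw_rel hr m)
  have h2 := blw_cnt R rel m
  rw [Fintype.card_prod, Fintype.card_fin] at h1
  push_cast at h1
  rw [← hn] at h1
  have h3 := h2.trans h1
  rw [div_lt_iff₀ hd] at hm
  have h4 : (m : ℝ) ^ 2 * (|C| * n ^ 2) < (m : ℝ) ^ 2 * (m * (cnt R rel - D * n ^ 3)) :=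
    mul_lt_mul_of_pos_left hm (by positivity)
  have h5 : C * (n * m) ^ 2 ≤ (m : ℝ) ^ 2 * (|C| * n ^ 2) := by
    have := mul_le_mul_of_nonneg_right (le_abs_self C) (by positivity : 0 ≤ (n * (m : ℝ)) ^ 2)
    nlinarith
  nlinarith

end Pool.Agent.U378.TM
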