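import Pool.Agent.U378.TM.RM.Tab

/-! Tables for the rules. -/

set_option autoImplicit false
set_option maxRecDepth 100000

namespace Pool.Agent.U378.TM

/-- type of the code of a triple -/
def tp (c : ℕ) : ℕ := tyS RM.TY c

def gs (k s : ℕ) : ℕ := (([[0, 1, 2, 3], [0, 1, 3, 2], [1, 0, 2, 3], [1, 0, 3, 2]] :
  List (List ℕ)).getD k []).getD s 0

theorem gs_lt : ∀ k < 4, ∀ s < 4, gs k s < 4 := by decide +kernel
theorem gs_rv : ∀ k < 4, ∀ s < 4, gs k (rv s) = rv (gs k s) := by decide +kernel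

def gc (k c : ℕ) : ℕ := q4 (gs k (dg0 c)) (gs k (dg1 c)) (gs k (dg2 c))

/-- the maximal rules: mask, symmetry, representative -/
def RL : List (ℕ × ℕ × ℕ) := [(34896, 0, 34896), (34912, 2, 34896), (41232, 3, 34896),
  (41248, 1, 34896)]

theorem RL_chk : ∀ x ∈ RL, x.2.1 < 4 ∧ x.2.2 ∈ [34896] ∧
    ∀ c < 64, bit x.1 (tp c) = 1 → bit x.2.2 (tp (gc x.2.1 c)) = 1 := by decide +kernel

theorem m34896 : ∀ c < 64, bit 34896 (tp c) = 1 → tyS RM.TY c ∈ [4, 6, 11, 15] := by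
  decide +kernel

end Pool.Agent.U378.TM
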