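import Pool.Agent.U378.TM.RM.Cert
import Pool.Agent.U378.TM.Blow
import Pool.Agent.U378.TM.Codes
import Pool.Agent.W38.TO.Bridge

/-! The bounds for the class of maximal rules. -/

set_option autoImplicit false
set_option maxRecDepth 100000
open Finset
open scoped Classical

namespace Pool.Agent.U378.TM

theorem cert_cnt {TY PA AC AF nt X κ a : ℕ} {T O : ℕ → ℕ} (h : Cert TY PA AC AF nt T O X)
    (L : List ℕ) (hO : ∀ t, O t = 8388608 + κ * (if t ∈ L then 1 else 0))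
    (hX : X = 83886080 + a) (hκ : 0 < κ) (ha : 9 * a ≤ 50 * κ) (V : Type) [Fintype V]
    (rel : V → V → ℕ) (hr : Rel4 rel) :
    cnt (fun c => tyS TY c ∈ L) rel ≤ 5 / 9 * (Fintype.card V : ℝ) ^ 3 := by
  refine blow (C := 1677721600 / (10 * (κ : ℝ))) (D := 5 / 9) ?_ V rel hr
  intro V _ hn rel hr
  have h1 := flag5 h hn hr
  set n : ℝ := (Fintype.card V : ℝ) with hnd
  have hn0 : 0 < n := by rw [hnd]; exact_mod_cast hn
  have hκr : (0 : ℝ) < κ := by exact_mod_cast hκ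
  have har : (9 : ℝ) * a ≤ 50 * κ := by exact_mod_cast ha
  set S : ℝ := ∑ a : V, ∑ b : V, ∑ c : V, (if tyS TY (c3 rel a b c) ∈ L then (1 : ℝ) else 0)
    with hS
  have e : ∑ a : V, ∑ b : V, ∑ c : V, (O (tyS TY (c3 rel a b c)) : ℝ)
      = 8388608 * n ^ 3 + κ * S := by
    rw [hS]
    simp only [hO, mul_sum]
    have e1 : (8388608 : ℝ) * n ^ 3 = ∑ _a : V, ∑ _b : V, ∑ _c : V, (8388608 : ℝ) := by
      simp only [sum_const, card_univ, nsmul_eq_mul]
      rw [hnd]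
      ring
    rw [e1, ← sum_add_distrib]
    refine sum_congr rfl fun a _ => ?_
    rw [← sum_add_distrib]
    refine sum_congr rfl fun b _ => ?_
    rw [← sum_add_distrib]
    refine sum_congr rfl fun c _ => ?_
    push_cast
    ring
  rw [e, hX] at h1
  push_cast at h1
  have h2 : (10 * κ * n ^ 2) * S ≤ (10 * κ * n ^ 2) *
      (5 / 9 * n ^ 3 + 1677721600 / (10 * (κ : ℝ)) * n ^ 2) := by
    have e2 : (10 * κ * n ^ 2) * (5 / 9 * n ^ 3 + 1677721600 / (10 * (κ : ℝ)) * n ^ 2)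
        = 50 / 9 * κ * n ^ 5 + 1677721600 * n ^ 4 := by
      field_simp
      ring
    rw [e2]
    have h3 : (a : ℝ) * n ^ 5 ≤ 50 / 9 * κ * n ^ 5 :=
      mul_le_mul_of_nonneg_right (by linarith) (by positivity)
    nlinarith
  have h4 := le_of_mul_le_mul_left h2 (by positivity : 0 < 10 * (κ : ℝ) * n ^ 2)
  rw [hS] at h4
  refine le_trans (le_of_eq ?_) h4
  refine sum_congr rfl fun a _ => sum_congr rfl fun b _ => sum_congr rfl fun c _ => ?_
  by_cases hh : tyS TY (c3 rel a b c) ∈ L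
  · rw [if_pos hh, if_pos hh]
  · rw [if_neg hh, if_neg hh]

theorem cnt_mono {R R' : ℕ → Prop} {V : Type} [Fintype V] {rel : V → V → ℕ} (hr : Rel4 rel)
    (h : ∀ c < 64, R c → R' c) : cnt R rel ≤ cnt R' rel := by
  unfold cnt
  refine sum_le_sum fun a _ => sum_le_sum fun b _ => sum_le_sum fun c _ => ?_
  by_cases h1 : a ≠ b ∧ a ≠ c ∧ b ≠ c ∧ R (c3 rel a b c)
  · rw [if_pos h1, if_pos ⟨h1.1, h1.2.1, h1.2.2.1, h _ (c3_lt hr _ _ _) h1.2.2.2⟩]
  · rw [if_neg h1]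
    split_ifs <;> norm_num

theorem cnt34896 {V : Type} [Fintype V] {rel : V → V → ℕ} (hr : Rel4 rel) :
    cnt (fun c => bit 34896 (tp c) = 1) rel ≤ 5 / 9 * (Fintype.card V : ℝ) ^ 3 := by
  refine le_trans (cnt_mono hr (R' := fun c => tyS RM.TY c ∈ [4, 6, 11, 15]) m34896)
    (cert_cnt RM.cert [4, 6, 11, 15] (κ := 27000) (a := 150000) (fun _ => rfl) rfl (by norm_num)
      (by norm_num) V rel hr)

theorem card_le_cnt {n : ℕ} {H : Finset (Finset (Fin n))} (hH : ∀ e ∈ H, e.card = 3)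
    {rel : Fin n → Fin n → ℕ} {R : ℕ → Prop}
    (h : ∀ a b c : Fin n, a ≠ b → a ≠ c → b ≠ c → ({a, b, c} : Finset (Fin n)) ∈ H →
      R (c3 rel a b c)) : (6 : ℝ) * H.card ≤ cnt R rel := by
  have h1 := Pool.Agent.W38.TO.six_le hH
  have h2 : (6 : ℝ) * H.card ≤ ((∑ a : Fin n, ∑ b : Fin n, ∑ c : Fin n,
      (if ({a, b, c} : Finset (Fin n)) ∈ H then 1 else 0) : ℕ) : ℝ) := by exact_mod_cast h1
  refine h2.trans ?_
  push_cast
  unfold cnt
  refine sum_le_sum fun a _ => sum_le_sum fun b _ => sum_le_sum fun c _ => ?_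
  by_cases h3 : ({a, b, c} : Finset (Fin n)) ∈ H
  · obtain ⟨g1, g2, g3⟩ := Pool.Agent.W38.TO.card_of_triple (hH _ h3)
    rw [if_pos h3, if_pos ⟨g1, g2, g3, h a b c g1 g2 g3 h3⟩]
  · rw [if_neg h3]
    split_ifs <;> norm_num

theorem base_bound {n : ℕ} {H : Finset (Finset (Fin n))} (hH : ∀ e ∈ H, e.card = 3)
    {rel : Fin n → Fin n → ℕ} (hr : Rel4 rel) {b : ℕ} (hb : b ∈ [34896])
    (h : ∀ x y z : Fin n, x ≠ y → x ≠ z → y ≠ z → ({x, y, z} : Finset (Fin n)) ∈ H →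
      bit b (tp (c3 rel x y z)) = 1) : 54 * H.card ≤ 5 * n ^ 3 := by
  simp only [List.mem_cons, List.not_mem_nil, or_false] at hb
  subst hb
  have h2 := (card_le_cnt hH h).trans (cnt34896 hr)
  rw [Fintype.card_fin] at h2
  have h3 : (54 : ℝ) * H.card ≤ 5 * (n : ℝ) ^ 3 := by linarith
  exact_mod_cast h3

/-! ### the symmetries -/

theorem rel_g {V : Type} {rel : V → V → ℕ} (hr : Rel4 rel) {k : ℕ} (hk : k < 4) :
    Rel4 (fun x y => gs k (rel x y)) where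
  lt := fun x y => gs_lt k hk _ (hr.lt x y)
  rev := fun x y h => by
    show gs k (rel y x) = rv (gs k (rel x y))
    rw [hr.rev x y h, gs_rv k hk _ (hr.lt x y)]

theorem c3_g {V : Type} {rel : V → V → ℕ} (hr : Rel4 rel) (k : ℕ) (a b c : V) :
    c3 (fun x y => gs k (rel x y)) a b c = gc k (c3 rel a b c) := by
  unfold gc c3
  rw [dg0_q4 (hr.lt _ _), dg1_q4 (hr.lt _ _) (hr.lt _ _), dg2_q4 (hr.lt _ _) (hr.lt _ _)]

theorem max_bound {n : ℕ} {H : Finset (Finset (Fin n))} (hH : ∀ e ∈ H, e.card = 3)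
    {rel : Fin n → Fin n → ℕ} (hr : Rel4 rel) {M : ℕ × ℕ × ℕ} (hM : M ∈ RL)
    (h : ∀ x y z : Fin n, x ≠ y → x ≠ z → y ≠ z → ({x, y, z} : Finset (Fin n)) ∈ H →
      bit M.1 (tp (c3 rel x y z)) = 1) : 54 * H.card ≤ 5 * n ^ 3 := by
  obtain ⟨h1, h2, h3⟩ := RL_chk M hM
  refine base_bound hH (rel_g hr h1) h2 fun x y z hxy hxz hyz hm => ?_
  rw [c3_g hr]
  exact h3 _ (c3_lt hr _ _ _) (h x y z hxy hxz hyz hm)

end Pool.Agent.U378.TM
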