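import Pool.Agent.H122R2.FdF.TaskK1
import Pool.Agent.H122R2.FdF.FlagAux

/-! Kernel-reducible checkers for flag algebra certificates with five vertices, for structures in
which every ordered pair of distinct vertices has one of four relations (oriented graphs whose
non-adjacent pairs are coloured with two colours). -/

set_option autoImplicit false
set_option maxRecDepth 100000

namespace Pool.Agent.U378.TM

open Pool.Agent.H122R2.FdF (nall nsum nall_true nsum_eq)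

def q4 (x y z : ℕ) : ℕ := Nat.add x (Nat.add (Nat.mul 4 y) (Nat.mul 16 z))
/-- reversed relation code -/
def rv (d : ℕ) : ℕ := Nat.mod (Nat.shiftRight 180 (Nat.mul 2 d)) 4
def dg0 (c : ℕ) : ℕ := Nat.mod c 4
def dg1 (c : ℕ) : ℕ := Nat.mod (Nat.div c 4) 4
def dg2 (c : ℕ) : ℕ := Nat.div c 16
def s12 (c : ℕ) : ℕ := q4 (rv (dg0 c)) (dg2 c) (dg1 c)
def s23 (c : ℕ) : ℕ := q4 (dg1 c) (dg0 c) (rv (dg2 c))
def t12 (c : ℕ) : ℕ := q4 (dg1 c) (dg0 c) (dg2 c)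
def t23 (c : ℕ) : ℕ := q4 (dg0 c) (dg2 c) (dg1 c)

def f6 (T e : ℕ) : ℕ := Nat.mod (Nat.shiftRight T (Nat.mul 6 e)) 64
def f8 (T e : ℕ) : ℕ := Nat.mod (Nat.shiftRight T (Nat.mul 8 e)) 256
def f24 (T e : ℕ) : ℕ := Nat.mod (Nat.shiftRight T (Nat.mul 24 e)) 16777216
def row (T i : ℕ) : ℕ := Nat.mod (Nat.shiftRight T (Nat.mul 1536 i)) (Nat.pow 2 1536)
def bit (B c : ℕ) : ℕ := Nat.mod (Nat.shiftRight B c) 2

def tyS (TY c : ℕ) : ℕ := Nat.mod (Nat.shiftRight TY (Nat.mul 4 c)) 16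
def paS (PA c i : ℕ) : ℕ := f6 PA (Nat.add (Nat.mul 64 c) i)
def acS (AC p i : ℕ) : ℕ := cond (Nat.beq p 0) i (f6 AC (Nat.add (Nat.mul 64 p) i))
def ent (T : ℕ → ℕ) (t i j : ℕ) : ℕ := f24 (row (T t) i) j
def q3S (TY PA : ℕ) (T : ℕ → ℕ) (c i j : ℕ) : ℕ := ent T (tyS TY c) (paS PA c i) (paS PA c j)

/-- some `k < n` satisfies `f` -/
def nany (n : ℕ) (f : ℕ → Bool) : Bool := Nat.rec false (fun k s => or s (f k)) n

/-- ten triples, each with the attachments of the two other vertices -/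
def S10 (f : ℕ → ℕ → ℕ → ℕ) (d01 e01 d02 e02 d12 e12 d03 e03 d13 e13 d23 e23 d04 e04 d14 e14
    d24 e24 d34 e34 : ℕ) : ℕ :=
  Nat.add (f (q4 d01 d02 d12) (q4 d03 d13 d23) (q4 d04 d14 d24))
    (Nat.add (f (q4 d01 d03 d13) (q4 d02 d12 e23) (q4 d04 d14 d34))
    (Nat.add (f (q4 d01 d04 d14) (q4 d02 d12 e24) (q4 d03 d13 e34))
    (Nat.add (f (q4 d02 d03 d23) (q4 d01 e12 e13) (q4 d04 d24 d34))
    (Nat.add (f (q4 d02 d04 d24) (q4 d01 e12 e14) (q4 d03 d23 e34))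
    (Nat.add (f (q4 d03 d04 d34) (q4 d01 e13 e14) (q4 d02 e23 e24))
    (Nat.add (f (q4 d12 d13 d23) (q4 e01 e02 e03) (q4 d14 d24 d34))
    (Nat.add (f (q4 d12 d14 d24) (q4 e01 e02 e04) (q4 d13 d23 e34))
    (Nat.add (f (q4 d13 d14 d34) (q4 e01 e03 e04) (q4 d12 e23 e24))
    (f (q4 d23 d24 d34) (q4 e02 e03 e04) (q4 e12 e13 e14))))))))))

/-! ### nested checks over the codes marked in a bitmap -/

def sb (k bm d : ℕ) : ℕ := Nat.mod (Nat.shiftRight bm (Nat.mul d k)) (Nat.pow 2 k)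

def A4b (k bm : ℕ) (f : ℕ → ℕ → ℕ → Bool) : Bool :=
  and (cond (Nat.beq (sb k bm 0) 0) true (f 0 0 (sb k bm 0)))
    (and (cond (Nat.beq (sb k bm 1) 0) true (f 1 1 (sb k bm 1)))
      (and (cond (Nat.beq (sb k bm 2) 0) true (f 2 3 (sb k bm 2)))
        (cond (Nat.beq (sb k bm 3) 0) true (f 3 2 (sb k bm 3)))))

def A4c (k bm : ℕ) (f : ℕ → ℕ → ℕ → Bool) : Bool :=
  and (f 0 0 (sb k bm 0)) (and (f 1 1 (sb k bm 1))
    (and (f 2 3 (sb k bm 2)) (f 3 2 (sb k bm 3))))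

abbrev F20 := ℕ → ℕ → ℕ → ℕ → ℕ → ℕ → ℕ → ℕ → ℕ → ℕ → ℕ → ℕ → ℕ → ℕ → ℕ → ℕ → ℕ → ℕ → ℕ → ℕ → Bool

/-- the codes with first four digits `a b c d` marked in `BM` -/
def nest (a a' b b' c c' d d' BM : ℕ) (F : F20) : Bool :=
  A4b 1024 BM fun d13 e13 b5 => A4b 256 b5 fun d23 e23 b6 =>
  A4b 64 b6 fun d04 e04 b7 => A4b 16 b7 fun d14 e14 b8 => A4b 4 b8 fun d24 e24 b9 =>
  A4b 1 b9 fun d34 e34 _ =>
    F a a' b b' c c' d d' d13 e13 d23 e23 d04 e04 d14 e14 d24 e24 d34 e34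

def bitD (BM d13 d23 d04 d14 d24 d34 : ℕ) : ℕ :=
  sb 1 (sb 4 (sb 16 (sb 64 (sb 256 (sb 1024 BM d13) d23) d04) d14) d24) d34

def k3 (a b c : ℕ) : ℕ := Nat.add (Nat.mul 16 a) (Nat.add (Nat.mul 4 b) c)
def k6 (a b c d e f : ℕ) : ℕ := Nat.add (Nat.mul 64 (k3 a b c)) (k3 d e f)
def k4 (a b c d : ℕ) : ℕ := Nat.add (Nat.mul 64 a) (k3 b c d)
def k10 (a b c d e f g h i j : ℕ) : ℕ := Nat.add (Nat.mul 256 (k6 a b c d e f)) (k4 g h i j)

def lt' (a b : ℕ) : Bool := Nat.ble (Nat.succ a) b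

/-- the locally minimal codes with first four digits `d01 d02 d12 d03` are all marked -/
def lmc (d01 e01 d02 d12 e12 d03 BM : ℕ) : Bool :=
  or (or (lt' (k3 e01 d12 d02) (k3 d01 d02 d12)) (lt' (k3 d02 d01 e12) (k3 d01 d02 d12)))
  (A4c 1024 BM fun d13 _ b5 => A4c 256 b5 fun d23 e23 b6 =>
  or (or (lt' (k6 e01 d12 d02 d13 d03 d23) (k6 d01 d02 d12 d03 d13 d23))
    (or (lt' (k6 d02 d01 e12 d03 d23 d13) (k6 d01 d02 d12 d03 d13 d23))
      (lt' (k6 d01 d03 d13 d02 d12 e23) (k6 d01 d02 d12 d03 d13 d23))))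
  (A4c 64 b6 fun d04 _ b7 => A4c 16 b7 fun d14 _ b8 => A4c 4 b8 fun d24 _ b9 =>
  A4c 1 b9 fun d34 e34 b =>
  or (not (Nat.beq b 0))
    (or (lt' (k10 e01 d12 d02 d13 d03 d23 d14 d04 d24 d34) (k10 d01 d02 d12 d03 d13 d23 d04 d14 d24 d34))
    (or (lt' (k10 d02 d01 e12 d03 d23 d13 d04 d24 d14 d34) (k10 d01 d02 d12 d03 d13 d23 d04 d14 d24 d34))
    (or (lt' (k10 d01 d03 d13 d02 d12 e23 d04 d14 d34 d24) (k10 d01 d02 d12 d03 d13 d23 d04 d14 d24 d34))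
      (lt' (k10 d01 d02 d12 d04 d14 d24 d03 d13 d23 e34)
        (k10 d01 d02 d12 d03 d13 d23 d04 d14 d24 d34)))))))

/-- digits of the code of a prefix -/
def g0 (p : ℕ) : ℕ := Nat.div p 64
def g1 (p : ℕ) : ℕ := Nat.mod (Nat.div p 16) 4
def g2 (p : ℕ) : ℕ := Nat.mod (Nat.div p 4) 4
def g3 (p : ℕ) : ℕ := Nat.mod p 4

def lmP (p BM : ℕ) : Bool :=
  lmc (g0 p) (rv (g0 p)) (g1 p) (g2 p) (rv (g2 p)) (g3 p) BM
def nestP (p BM : ℕ) (F : F20) : Bool :=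
  nest (g0 p) (rv (g0 p)) (g1 p) (rv (g1 p)) (g2 p) (rv (g2 p)) (g3 p) (rv (g3 p)) BM F

/-! ### checks of the tables of the system -/

def tabB (TY PA AC AF nt : ℕ) : Bool :=
  nall 64 fun c => and (and (Nat.ble (Nat.succ (tyS TY c)) nt)
      (nall 64 fun i => Nat.ble (Nat.succ (paS PA c i)) 64))
    (and (and (Nat.beq (tyS TY (s12 c)) (tyS TY c))
        (nany 6 fun p => and (or (Nat.beq p 0) (Nat.beq (bit AF (Nat.add (Nat.mul 6 (tyS TY c)) p)) 1))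
          (nall 64 fun i => Nat.beq (paS PA (s12 c) (t12 i)) (acS AC p (paS PA c i)))))
      (and (Nat.beq (tyS TY (s23 c)) (tyS TY c))
        (nany 6 fun p => and (or (Nat.beq p 0) (Nat.beq (bit AF (Nat.add (Nat.mul 6 (tyS TY c)) p)) 1))
          (nall 64 fun i => Nat.beq (paS PA (s23 c) (t23 i)) (acS AC p (paS PA c i))))))

/-- symmetry of the tables of a certificate -/
def symB (AC AF : ℕ) (T : ℕ → ℕ) (t : ℕ) : Bool :=
  and (nall 64 fun i => nall i fun j => Nat.beq (ent T t i j) (ent T t j i))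
    (nall 5 fun p =>
      cond (Nat.beq (bit AF (Nat.add (Nat.mul 6 t) (Nat.succ p))) 1)
        (nall 64 fun i => nall 64 fun j =>
          Nat.beq (ent T t (acS AC (Nat.succ p) i) (acS AC (Nat.succ p) j)) (ent T t i j)) true)

/-! ### the check of a leaf -/

def leafB (TY PA : ℕ) (T : ℕ → ℕ) (X : ℕ) : F20 :=
  fun d01 e01 d02 e02 d12 e12 d03 e03 d13 e13 d23 e23 d04 e04 d14 e14 d24 e24 d34 e34 =>
  Nat.ble (S10 (q3S TY PA T) d01 e01 d02 e02 d12 e12 d03 e03 d13 e13 d23 e23 d04 e04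
          d14 e14 d24 e24 d34 e34) X

/-! ### positive semidefiniteness of a table, after subtraction of the constant `O` -/

def mn (a b : ℕ) : ℕ := cond (Nat.ble a b) a b

/-- `FR`: free coordinates; `GI`: their inverse; `BN`: coefficients of the other columns;
`L`: upper triangular factor -/
def posP (T : ℕ → ℕ) (t FR S2 L a b : ℕ) : ℕ :=
  Nat.add (Nat.mul S2 (ent T t (f6 FR a) (f6 FR b)))
    (Nat.mul 8388608 (nsum (Nat.succ (mn a b)) fun k =>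
      Nat.add (f24 (row L k) a) (f24 (row L k) b)))
def posN (O S2 L a b : ℕ) : ℕ :=
  Nat.add (Nat.mul S2 O)
    (Nat.add (nsum (Nat.succ (mn a b)) fun k =>
      Nat.mul (f24 (row L k) a) (f24 (row L k) b))
      (Nat.mul (Nat.succ (mn a b)) 70368744177664))

def colB (T : ℕ → ℕ) (O t r FR BN den i j : ℕ) : Bool :=
  Nat.beq (Nat.add (Nat.mul den (ent T t i j)) (Nat.add
      (Nat.mul O (nsum r fun a => f8 BN (Nat.add (Nat.mul 64 a) j)))
      (Nat.mul 128 (nsum r fun a => ent T t i (f6 FR a)))))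
    (Nat.add (nsum r fun a => Nat.mul (f8 BN (Nat.add (Nat.mul 64 a) j)) (ent T t i (f6 FR a)))
      (Nat.add (Nat.mul r (Nat.mul 128 O)) (Nat.mul den O)))

def colsB (T : ℕ → ℕ) (O t r FR GI BN den : ℕ) : Bool :=
  and (Nat.ble 1 den)
  (and (nall r fun a => Nat.ble (Nat.succ (f6 FR a)) 64)
  (nall 64 fun j => cond (Nat.ble r (f6 GI j)) (nall 64 fun i => colB T O t r FR BN den i j)
      (Nat.beq (f6 FR (f6 GI j)) j)))

def domB (T : ℕ → ℕ) (O t r FR S2 L : ℕ) : Bool :=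
  and (Nat.ble 1 S2)
    (nall r fun a => Nat.ble (nsum r fun b => Nat.add
        (Nat.sub (posP T t FR S2 L a b) (posN O S2 L a b))
        (Nat.sub (posN O S2 L a b) (posP T t FR S2 L a b)))
      (Nat.mul 2 (Nat.sub (posP T t FR S2 L a a) (posN O S2 L a a))))

end Pool.Agent.U378.TM
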