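import Pool.Agent.U378.TM.Psd
import Pool.Agent.W38.TO.Sum5

/-! From a certificate to a bound for the number of edges. -/

set_option autoImplicit false
set_option maxRecDepth 100000
open Finset
open scoped Classical

namespace Pool.Agent.U378.TM

open Pool.Agent.H122R2.FdF (nall nsum nall_true nsum_eq)

/-- the checks of a certificate -/
structure Cert (TY PA AC AF nt : ℕ) (T O : ℕ → ℕ) (X : ℕ) : Prop where
  tab : tabB TY PA AC AF nt = true
  sym : ∀ t < nt, symB AC AF T t = true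
  leaf : ∀ p < 256, ∃ BM, lmP p BM = true ∧ nestP p BM (leafB TY PA T X) = true
  psd : ∀ t < nt, Psd T (O t) t

theorem psum {V : Type} [Fintype V] (F : V → V → V → V → V → ℝ) (g : Fin 5 → Fin 5)
    (hg : Function.Bijective g) :
    ∑ x : Fin 5 → V, F (x (g 0)) (x (g 1)) (x (g 2)) (x (g 3)) (x (g 4))
      = ∑ x : Fin 5 → V, F (x 0) (x 1) (x 2) (x 3) (x 4) := by
  have h := Pool.Agent.H122R2.FdF.K1.psumw (fun _ => (1 : ℝ)) F g hg
  simpa using h

theorem conv {V : Type} [Fintype V] (F : V → V → V → V → V → ℝ) :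
    ∑ x : Fin 5 → V, F (x 0) (x 1) (x 2) (x 3) (x 4)
      = ∑ a, ∑ b, ∑ c, ∑ d, ∑ e, F a b c d e := by
  have h := Pool.Agent.H122R2.FdF.K1.convw (fun _ => (1 : ℝ)) F
  simpa using h

theorem sum_W10 {V : Type} [Fintype V] (rel : V → V → ℕ) (f : ℕ → ℕ → ℕ → ℕ) :
    ∑ x : Fin 5 → V, (W10 rel f (x 0) (x 1) (x 2) (x 3) (x 4) : ℝ)
      = 10 * ∑ a, ∑ b, ∑ c, ∑ d, ∑ e, (F3 rel f a b c d e : ℝ) := by
  have f3 : ∀ i0 i1 i2 i3 i4 : Fin 5, Function.Bijective ![i0, i1, i2, i3, i4] →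
      ∑ x : Fin 5 → V, (F3 rel f (x i0) (x i1) (x i2) (x i3) (x i4) : ℝ)
      = ∑ x : Fin 5 → V, (F3 rel f (x 0) (x 1) (x 2) (x 3) (x 4) : ℝ) :=
    fun i0 i1 i2 i3 i4 hg =>
      psum (fun a b c d e => (F3 rel f a b c d e : ℝ)) ![i0, i1, i2, i3, i4] hg
  rw [← conv (fun a b c d e => (F3 rel f a b c d e : ℝ))]
  simp only [W10_eq, Nat.cast_add, sum_add_distrib]
  rw [f3 0 1 3 2 4 (by decide), f3 0 1 4 2 3 (by decide), f3 0 2 3 1 4 (by decide),
      f3 0 2 4 1 3 (by decide), f3 0 3 4 1 2 (by decide), f3 1 2 3 0 4 (by decide),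
      f3 1 2 4 0 3 (by decide), f3 1 3 4 0 2 (by decide), f3 2 3 4 0 1 (by decide)]
  ring

theorem lower_W10 {TY PA AC AF nt X : ℕ} {T O : ℕ → ℕ}
    (h : Cert TY PA AC AF nt T O X) {V : Type} [Fintype V] {rel : V → V → ℕ}
    (hr : Rel4 rel) : 10 * ((Fintype.card V : ℝ) ^ 2 *
      ∑ a, ∑ b, ∑ c, (O (tyS TY (c3 rel a b c)) : ℝ)) ≤
    ∑ x : Fin 5 → V, (W10 rel (q3S TY PA T) (x 0) (x 1) (x 2) (x 3) (x 4) : ℝ) := by
  rw [sum_W10]
  refine mul_le_mul_of_nonneg_left ?_ (by norm_num)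
  rw [mul_sum]
  refine sum_le_sum fun a _ => ?_
  rw [mul_sum]
  refine sum_le_sum fun b _ => ?_
  rw [mul_sum]
  refine sum_le_sum fun c _ => ?_
  obtain ⟨a1, a2, -⟩ := tab_ty h.tab (c3_lt hr a b c)
  have h1 := h.psd _ a1 V (fun d : V => paS PA (c3 rel a b c) (c4 rel a b c d))
    (fun d => a2 _ (c4_lt hr _ _ _ _))
  have h2 : (Fintype.card V : ℝ) ^ 2 * (O (tyS TY (c3 rel a b c)) : ℝ)
      = ∑ _d : V, ∑ _e : V, (O (tyS TY (c3 rel a b c)) : ℝ) := by
    simp only [sum_const, card_univ, nsmul_eq_mul]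
    ring
  rw [h2, ← sub_nonneg, ← sum_sub_distrib]
  refine le_trans h1 (le_of_eq ?_)
  refine sum_congr rfl fun d _ => ?_
  rw [← sum_sub_distrib]
  rfl

theorem ent_lt (T : ℕ → ℕ) (t i j : ℕ) : ent T t i j < 16777216 := Nat.mod_lt _ (by norm_num)

theorem W10_le {V : Type} (rel : V → V → ℕ) (f : ℕ → ℕ → ℕ → ℕ) (w : ℕ)
    (hf : ∀ c i j, f c i j ≤ w) (a b c d e : V) : W10 rel f a b c d e ≤ 10 * w := by
  have h : ∀ a b c d e : V, F3 rel f a b c d e ≤ w := fun a b c d e => hf _ _ _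
  rw [W10_eq]
  have h0 := h a b c d e
  have h1 := h a b d c e
  have h2 := h a b e c d
  have h3 := h a c d b e
  have h4 := h a c e b d
  have h5 := h a d e b c
  have h6 := h b c d a e
  have h7 := h b c e a d
  have h8 := h b d e a c
  have h9 := h c d e a b
  omega

/-- the bound given by a certificate -/
theorem flag5 {TY PA AC AF nt X : ℕ} {T O : ℕ → ℕ}
    (h : Cert TY PA AC AF nt T O X) {V : Type} [Fintype V]
    (hn : 0 < Fintype.card V) {rel : V → V → ℕ} (hr : Rel4 rel) :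
    10 * (Fintype.card V : ℝ) ^ 2 * (∑ a, ∑ b, ∑ c, (O (tyS TY (c3 rel a b c)) : ℝ))
      ≤ (X : ℝ) * (Fintype.card V : ℝ) ^ 5 + 1677721600 * (Fintype.card V : ℝ) ^ 4 := by
  obtain ⟨n, hnd⟩ : ∃ n : ℝ, n = (Fintype.card V : ℝ) := ⟨_, rfl⟩
  have hnp : 0 < n := by rw [hnd]; exact_mod_cast hn
  have L3 := lower_W10 h hr
  have pw : ∀ x : Fin 5 → V, (W10 rel (q3S TY PA T) (x 0) (x 1) (x 2) (x 3) (x 4) : ℝ)
      ≤ (X : ℝ) + (if Function.Injective x then 0 else 167772160) := by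
    intro x
    by_cases hi : Function.Injective x
    · rw [if_pos hi, add_zero]
      have hne : ∀ i j : Fin 5, i ≠ j → x i ≠ x j := fun i j hij he => hij (hi he)
      have := leaf_all h.tab h.sym h.leaf hr _ (x 0) (x 1) (x 2) (x 3) (x 4)
        ⟨hne 0 1 (by decide), hne 0 2 (by decide), hne 0 3 (by decide), hne 0 4 (by decide),
          hne 1 2 (by decide), hne 1 3 (by decide), hne 1 4 (by decide), hne 2 3 (by decide),
          hne 2 4 (by decide), hne 3 4 (by decide)⟩ rfl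
      exact_mod_cast this
    · rw [if_neg hi]
      have c1 := W10_le rel (q3S TY PA T) 16777216 (fun c i j => (ent_lt _ _ _ _).le)
        (x 0) (x 1) (x 2) (x 3) (x 4)
      have c1' : (W10 rel (q3S TY PA T) (x 0) (x 1) (x 2) (x 3) (x 4) : ℝ) ≤ 10 * 16777216 := by
        exact_mod_cast c1
      have hX0 : (0 : ℝ) ≤ (X : ℝ) := Nat.cast_nonneg _
      linarith
  have key := sum_le_sum (s := (univ : Finset (Fin 5 → V))) fun x _ => pw x
  simp only [sum_add_distrib] at key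
  have hc : ∑ _x : Fin 5 → V, (X : ℝ) = n ^ 5 * X := by
    rw [sum_const, card_univ, Fintype.card_fun, nsmul_eq_mul, hnd]
    push_cast
    simp
  have hni : ∑ x : Fin 5 → V, (if Function.Injective x then (0 : ℝ) else 167772160)
      ≤ 10 * 167772160 * n ^ 4 := by
    have h1 := Pool.Agent.W38.TO.ninj5 (V := V) 167772160 (by norm_num) hn
    rw [← mul_sum] at h1
    simp only [prod_const, card_univ, Fintype.card_fin, ← hnd] at h1
    have h2 := mul_le_mul_of_nonneg_left h1 (by positivity : 0 ≤ n ^ 5)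
    have e1 : n ^ 5 * ((1 / n) ^ 5 *
        ∑ x : Fin 5 → V, (if Function.Injective x then (0 : ℝ) else 167772160))
        = ∑ x : Fin 5 → V, (if Function.Injective x then (0 : ℝ) else 167772160) := by
      field_simp
    have e2 : n ^ 5 * (10 * 167772160 / n) = 10 * 167772160 * n ^ 4 := by
      field_simp
    rw [e1, e2] at h2
    exact h2
  rw [hc] at key
  rw [← hnd] at L3 ⊢
  nlinarith [key, hni, L3]

end Pool.Agent.U378.TM
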