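import Pool.Agent.U378.TM.Desc

/-! Soundness of the check of positive semidefiniteness. -/

set_option autoImplicit false
set_option maxRecDepth 100000
open Finset

namespace Pool.Agent.U378.TM

open Pool.Agent.H122R2.FdF (nall nsum nall_true nsum_eq)

theorem abs_cast (P N : ℕ) : (((P - N : ℕ) : ℝ) + ((N - P : ℕ) : ℝ)) = |(P : ℝ) - N| := by
  rcases le_total P N with h | h
  · rw [Nat.sub_eq_zero_of_le h, Nat.cast_sub h, abs_of_nonpos (by
      have : (P : ℝ) ≤ N := by exact_mod_cast h
      linarith)]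
    simp
  · rw [Nat.sub_eq_zero_of_le h, Nat.cast_sub h, abs_of_nonneg (by
      have : (N : ℝ) ≤ P := by exact_mod_cast h
      linarith)]
    simp

theorem diagdom (r : ℕ) (R : ℕ → ℕ → ℝ) (hs : ∀ a < r, ∀ b < r, R a b = R b a)
    (h0 : ∀ a < r, 0 ≤ R a a) (hd : ∀ a < r, ∑ b ∈ range r, |R a b| ≤ 2 * R a a) (w : ℕ → ℝ) :
    0 ≤ ∑ a ∈ range r, ∑ b ∈ range r, w a * w b * R a b := by
  have h1 : ∀ a ∈ range r, ∀ b ∈ range r,
      (if a = b then 2 * R a a * w a ^ 2 else 0) - (|R a b| * w a ^ 2 / 2 + |R a b| * w b ^ 2 / 2)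
        ≤ w a * w b * R a b := by
    intro a ha b hb
    by_cases hab : a = b
    · subst hab
      rw [if_pos rfl, abs_of_nonneg (h0 a (mem_range.mp ha))]
      nlinarith
    · rw [if_neg hab]
      have h2 := neg_abs_le (R a b)
      have h3 := le_abs_self (R a b)
      have h4 := abs_nonneg (R a b)
      rcases le_total 0 (w a * w b) with h | h
      · have := mul_le_mul_of_nonneg_left h2 h
        nlinarith [mul_nonneg h4 (sq_nonneg (w a - w b))]
      · have := mul_le_mul_of_nonpos_left h3 h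
        nlinarith [mul_nonneg h4 (sq_nonneg (w a + w b))]
  refine le_trans ?_ (sum_le_sum fun a ha => sum_le_sum fun b hb => h1 a ha b hb)
  simp only [sum_sub_distrib, sum_add_distrib]
  have e1 : ∑ a ∈ range r, ∑ b ∈ range r, (if a = b then 2 * R a a * w a ^ 2 else 0)
      = ∑ a ∈ range r, 2 * R a a * w a ^ 2 := by
    refine sum_congr rfl fun a ha => ?_
    rw [sum_ite_eq, if_pos ha]
  have e2 : ∑ a ∈ range r, ∑ b ∈ range r, |R a b| * w b ^ 2 / 2
      = ∑ a ∈ range r, ∑ b ∈ range r, |R a b| * w a ^ 2 / 2 := by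
    rw [sum_comm]
    refine sum_congr rfl fun a ha => sum_congr rfl fun b hb => ?_
    rw [hs b (mem_range.mp hb) a (mem_range.mp ha)]
  rw [e1, e2]
  have e3 : ∑ a ∈ range r, ∑ b ∈ range r, |R a b| * w a ^ 2 / 2
      = ∑ a ∈ range r, (∑ b ∈ range r, |R a b|) * (w a ^ 2 / 2) := by
    refine sum_congr rfl fun a _ => ?_
    rw [sum_mul]
    exact sum_congr rfl fun b _ => by ring
  rw [e3, sub_nonneg, ← sum_add_distrib]
  refine sum_le_sum fun a ha => ?_
  have := mul_le_mul_of_nonneg_right (hd a (mem_range.mp ha)) (by positivity : 0 ≤ w a ^ 2 / 2)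
  nlinarith

theorem mn_eq (a b : ℕ) : mn a b = min a b := by
  unfold mn
  rcases le_total a b with h | h
  · have : Nat.ble a b = true := Nat.ble_eq_true_of_le h
    rw [this, cond_true, min_eq_left h]
  · rcases Nat.lt_or_ge b a with h1 | h1
    · have : Nat.ble a b = false := by
        cases hb : Nat.ble a b
        · rfl
        · exact absurd (Nat.le_of_ble_eq_true hb) (by omega)
      rw [this, cond_false, min_eq_right h]
    · have e : a = b := le_antisymm h1 h
      subst e
      cases Nat.ble a a <;> simp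

/-- entries of a table as signed numbers -/
noncomputable def Mz (T : ℕ → ℕ) (O t i j : ℕ) : ℝ := (ent T t i j : ℝ) - O

theorem psd_of {T : ℕ → ℕ} {O t r FR GI BN den S2 L : ℕ} (h : colsB T O t r FR GI BN den = true)
    (h' : domB T O t r FR S2 L = true)
    (hs : ∀ i < 64, ∀ j < 64, ent T t i j = ent T t j i) (v : ℕ → ℝ) :
    0 ≤ ∑ i ∈ range 64, ∑ j ∈ range 64, v i * v j * Mz T O t i j := by
  unfold colsB at h
  unfold domB at h'
  simp only [Bool.and_eq_true] at h h'
  obtain ⟨hden, hFR, hcol⟩ := h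
  obtain ⟨hS2, hdom⟩ := h'
  have hden := Nat.le_of_ble_eq_true hden
  have hS2 := Nat.le_of_ble_eq_true hS2
  have hf : ∀ a < r, f6 FR a < 64 := fun a ha => Nat.le_of_ble_eq_true (nall_true hFR a ha)
  have hdenr : (0 : ℝ) < den := by exact_mod_cast hden
  have hS2r : (0 : ℝ) < S2 := by exact_mod_cast hS2
  have hsym : ∀ i < 64, ∀ j < 64, Mz T O t i j = Mz T O t j i := fun i hi j hj => by
    unfold Mz; rw [hs i hi j hj]
  -- columns
  obtain ⟨c, hc⟩ : ∃ c : ℕ → ℕ → ℝ, ∀ i < 64, ∀ j < 64,
      (den : ℝ) * Mz T O t i j = ∑ a ∈ range r, c a j * Mz T O t i (f6 FR a) := by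
    refine ⟨fun a j => if r ≤ f6 GI j then (f8 BN (Nat.add (Nat.mul 64 a) j) : ℝ) - 128 else
      (if a = f6 GI j then (den : ℝ) else 0), fun i hi j hj => ?_⟩
    have h1 := nall_true hcol j hj
    by_cases hg : r ≤ f6 GI j
    · simp only [if_pos hg]
      rw [Nat.ble_eq_true_of_le hg, cond_true] at h1
      have h2 := Nat.eq_of_beq_eq_true (nall_true h1 i hi)
      rw [nsum_eq, nsum_eq, nsum_eq] at h2
      have h3 := congrArg (fun n : ℕ => (n : ℝ)) h2
      simp only [Nat.add_eq, Nat.mul_eq] at h3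
      push_cast at h3
      unfold Mz
      have e : ∀ a ∈ range r, ((f8 BN (Nat.add (Nat.mul 64 a) j) : ℝ) - 128) *
          ((ent T t i (f6 FR a) : ℝ) - O)
          = (f8 BN (64 * a + j) : ℝ) * (ent T t i (f6 FR a) : ℝ)
            - O * (f8 BN (64 * a + j) : ℝ) - 128 * (ent T t i (f6 FR a) : ℝ)
            + 128 * O := by
        intro a _
        show ((f8 BN (64 * a + j) : ℝ) - 128) * ((ent T t i (f6 FR a) : ℝ) - O) = _
        ring
      rw [sum_congr rfl e]
      simp only [sum_add_distrib, sum_sub_distrib, ← mul_sum, sum_const, card_range, nsmul_eq_mul]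
      linarith
    · simp only [if_neg hg]
      have hb : Nat.ble r (f6 GI j) = false := by
        cases hb : Nat.ble r (f6 GI j)
        · rfl
        · exact absurd (Nat.le_of_ble_eq_true hb) hg
      rw [hb, cond_false] at h1
      have h2 := Nat.eq_of_beq_eq_true h1
      simp only [ite_mul, zero_mul]
      rw [sum_ite_eq', if_pos (mem_range.mpr (by omega)), h2]
  set w : ℕ → ℝ := fun a => ∑ j ∈ range 64, c a j * v j with hw
  have eB : (den : ℝ) ^ 2 * ∑ i ∈ range 64, ∑ j ∈ range 64, v i * v j * Mz T O t i j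
      = ∑ a ∈ range r, ∑ b ∈ range r, w a * w b * Mz T O t (f6 FR a) (f6 FR b) := by
    have e1 : ∀ i < 64, ∀ j < 64, (den : ℝ) ^ 2 * Mz T O t i j
        = ∑ a ∈ range r, ∑ b ∈ range r, c a i * c b j * Mz T O t (f6 FR a) (f6 FR b) := by
      intro i hi j hj
      have e2 : (den : ℝ) ^ 2 * Mz T O t i j
          = ∑ b ∈ range r, c b j * ((den : ℝ) * Mz T O t i (f6 FR b)) := by
        rw [sq, mul_assoc, hc i hi j hj, mul_sum]
        exact sum_congr rfl fun b _ => by ring
      rw [e2, sum_comm]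
      refine sum_congr rfl fun b hb => ?_
      rw [hsym i hi _ (hf b (mem_range.mp hb)), hc _ (hf b (mem_range.mp hb)) i hi, mul_sum]
      refine sum_congr rfl fun a ha => ?_
      rw [hsym _ (hf b (mem_range.mp hb)) _ (hf a (mem_range.mp ha))]
      ring
    rw [mul_sum]
    have e3 : ∀ i ∈ range 64, (den : ℝ) ^ 2 * ∑ j ∈ range 64, v i * v j * Mz T O t i j
        = ∑ j ∈ range 64, ∑ a ∈ range r, ∑ b ∈ range r,
          v i * v j * (c a i * c b j * Mz T O t (f6 FR a) (f6 FR b)) := by
      intro i hi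
      rw [mul_sum]
      refine sum_congr rfl fun j hj => ?_
      have : (den : ℝ) ^ 2 * (v i * v j * Mz T O t i j)
          = v i * v j * ((den : ℝ) ^ 2 * Mz T O t i j) := by
        ring
      rw [this, e1 i (mem_range.mp hi) j (mem_range.mp hj), mul_sum]
      exact sum_congr rfl fun a _ => by rw [mul_sum]
    rw [sum_congr rfl e3]
    have e4 : ∀ i ∈ range 64, (∑ j ∈ range 64, ∑ a ∈ range r, ∑ b ∈ range r,
          v i * v j * (c a i * c b j * Mz T O t (f6 FR a) (f6 FR b)))
        = ∑ a ∈ range r, ∑ b ∈ range r, ∑ j ∈ range 64,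
          v i * v j * (c a i * c b j * Mz T O t (f6 FR a) (f6 FR b)) := by
      intro i _
      rw [sum_comm]
      exact sum_congr rfl fun a _ => sum_comm
    rw [sum_congr rfl e4, sum_comm]
    refine sum_congr rfl fun a _ => ?_
    rw [sum_comm]
    refine sum_congr rfl fun b _ => ?_
    show _ = (∑ j ∈ range 64, c a j * v j) * (∑ j ∈ range 64, c b j * v j) *
      Mz T O t (f6 FR a) (f6 FR b)
    rw [sum_mul_sum, sum_mul]
    refine sum_congr rfl fun i _ => ?_
    rw [sum_mul]
    exact sum_congr rfl fun j _ => by ring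
  -- the factorisation
  set l : ℕ → ℕ → ℝ := fun k a => (f24 (row L k) a : ℝ) - 8388608 with hl
  set R : ℕ → ℕ → ℝ := fun a b => (S2 : ℝ) * Mz T O t (f6 FR a) (f6 FR b)
    - ∑ k ∈ range (min a b + 1), l k a * l k b with hR
  have hPN : ∀ a b, (posP T t FR S2 L a b : ℝ) - (posN O S2 L a b : ℝ) = R a b := by
    intro a b
    rw [hR]
    dsimp only
    unfold posP posN Mz
    simp only [Nat.add_eq, Nat.mul_eq, Nat.succ_eq_add_one, nsum_eq, mn_eq]
    push_cast
    have e : ∀ k ∈ range (min a b + 1), l k a * l k b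
        = (f24 (row L k) a : ℝ) * (f24 (row L k) b : ℝ)
          - 8388608 * ((f24 (row L k) a : ℝ) + (f24 (row L k) b : ℝ)) + 70368744177664 := by
      intro k _
      rw [hl]
      show ((f24 (row L k) a : ℝ) - 8388608) * ((f24 (row L k) b : ℝ) - 8388608) = _
      ring
    rw [sum_congr rfl e]
    simp only [sum_add_distrib, sum_sub_distrib, ← mul_sum, sum_const, card_range, nsmul_eq_mul]
    push_cast
    ring
  have hdom' : ∀ a < r, (∑ b ∈ range r, |R a b|) ≤ 2 * R a a ∧ 0 ≤ R a a := by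
    intro a ha
    have h1 := Nat.le_of_ble_eq_true (nall_true hdom a ha)
    rw [nsum_eq] at h1
    have h2 : (∑ b ∈ range r, |R a b|) ≤
        2 * ((posP T t FR S2 L a a - posN O S2 L a a : ℕ) : ℝ) := by
      have h3 : ((∑ b ∈ range r, ((posP T t FR S2 L a b - posN O S2 L a b)
          + (posN O S2 L a b - posP T t FR S2 L a b)) : ℕ) : ℝ)
          ≤ ((2 * (posP T t FR S2 L a a - posN O S2 L a a) : ℕ) : ℝ) := by exact_mod_cast h1
      rw [Nat.cast_sum, Nat.cast_mul] at h3
      refine le_trans (le_of_eq ?_) h3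
      refine sum_congr rfl fun b _ => ?_
      rw [Nat.cast_add, abs_cast, hPN]
    rcases le_total (posN O S2 L a a) (posP T t FR S2 L a a) with h4 | h4
    · rw [Nat.cast_sub h4, hPN] at h2
      refine ⟨h2, ?_⟩
      rw [← hPN, sub_nonneg]
      exact_mod_cast h4
    · rw [Nat.sub_eq_zero_of_le h4, Nat.cast_zero, mul_zero] at h2
      have h5 : |R a a| ≤ ∑ b ∈ range r, |R a b| :=
        single_le_sum (f := fun b => |R a b|) (fun b _ => abs_nonneg _) (mem_range.mpr ha)
      have h6 : |R a a| = 0 := le_antisymm (le_trans h5 h2) (abs_nonneg _)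
      have h7 : R a a = 0 := abs_eq_zero.mp h6
      rw [h7]
      exact ⟨by linarith, le_rfl⟩
  have hRs : ∀ a < r, ∀ b < r, R a b = R b a := by
    intro a ha b hb
    rw [hR]
    dsimp only
    rw [hsym _ (hf a ha) _ (hf b hb), min_comm]
    congr 1
    exact sum_congr rfl fun k _ => by ring
  have hD := diagdom r R hRs (fun a ha => (hdom' a ha).2) (fun a ha => (hdom' a ha).1) w
  set U : ℕ → ℕ → ℝ := fun k a => if k ≤ a then l k a else 0 with hU
  have hUU : ∀ a < r, ∀ b < r, ∑ k ∈ range (min a b + 1), l k a * l k b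
      = ∑ k ∈ range r, U k a * U k b := by
    intro a ha b hb
    have hsub : range (min a b + 1) ⊆ range r := range_subset_range.mpr (by omega)
    rw [← sum_subset hsub (f := fun k => U k a * U k b)]
    · refine sum_congr rfl fun k hk => ?_
      have hk' := mem_range.mp hk
      rw [hU]
      dsimp only
      rw [if_pos (by omega), if_pos (by omega)]
    · intro k _ hk
      rw [mem_range] at hk
      rw [hU]
      dsimp only
      by_cases h1 : k ≤ a
      · rw [if_neg (by omega : ¬ k ≤ b), mul_zero]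
      · rw [if_neg h1, zero_mul]
  have hS : ∑ a ∈ range r, ∑ b ∈ range r, w a * w b * ∑ k ∈ range (min a b + 1), l k a * l k b
      = ∑ k ∈ range r, (∑ a ∈ range r, w a * U k a) ^ 2 := by
    have e1 : ∀ a ∈ range r, ∀ b ∈ range r,
        w a * w b * ∑ k ∈ range (min a b + 1), l k a * l k b
        = ∑ k ∈ range r, (w a * U k a) * (w b * U k b) := by
      intro a ha b hb
      rw [hUU a (mem_range.mp ha) b (mem_range.mp hb), mul_sum]
      exact sum_congr rfl fun k _ => by ring
    rw [sum_congr rfl fun a ha => sum_congr rfl fun b hb => e1 a ha b hb]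
    have e2 : ∀ a ∈ range r, (∑ b ∈ range r, ∑ k ∈ range r, (w a * U k a) * (w b * U k b))
        = ∑ k ∈ range r, ∑ b ∈ range r, (w a * U k a) * (w b * U k b) := fun a _ => sum_comm
    rw [sum_congr rfl e2, sum_comm]
    refine sum_congr rfl fun k _ => ?_
    rw [sq, sum_mul_sum]
  have hfin : (S2 : ℝ) * ((den : ℝ) ^ 2 * ∑ i ∈ range 64, ∑ j ∈ range 64, v i * v j * Mz T O t i j)
      = ∑ k ∈ range r, (∑ a ∈ range r, w a * U k a) ^ 2
        + ∑ a ∈ range r, ∑ b ∈ range r, w a * w b * R a b := by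
    rw [eB, ← hS, ← sum_add_distrib, mul_sum]
    refine sum_congr rfl fun a _ => ?_
    rw [← sum_add_distrib, mul_sum]
    refine sum_congr rfl fun b _ => ?_
    rw [hR]
    ring
  have hnn : 0 ≤ (S2 : ℝ) * ((den : ℝ) ^ 2 *
      ∑ i ∈ range 64, ∑ j ∈ range 64, v i * v j * Mz T O t i j) := by
    rw [hfin]
    exact add_nonneg (sum_nonneg fun k _ => sq_nonneg _) hD
  have h1 := nonneg_of_mul_nonneg_right hnn hS2r
  exact nonneg_of_mul_nonneg_right h1 (by positivity)

/-- for every family of flags the sum over the pairs is nonnegative -/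
def Psd (T : ℕ → ℕ) (O t : ℕ) : Prop :=
  ∀ (W : Type) [Fintype W] (g : W → ℕ), (∀ p, g p < 64) → 0 ≤ ∑ p, ∑ q, Mz T O t (g p) (g q)

theorem psd_pairs {T : ℕ → ℕ} {O t r FR GI BN den S2 L : ℕ}
    (h : colsB T O t r FR GI BN den = true) (h' : domB T O t r FR S2 L = true)
    (hs : ∀ i < 64, ∀ j < 64, ent T t i j = ent T t j i) : Psd T O t := by
  intro W _ g hg
  have h1 := psd_of h h' hs (fun i => ∑ p, if g p = i then (1 : ℝ) else 0)
  refine le_trans h1 (le_of_eq ?_)
  have e1 : ∀ i j : ℕ, (∑ p, if g p = i then (1 : ℝ) else 0) * (∑ q, if g q = j then (1 : ℝ) else 0)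
      * Mz T O t i j = ∑ p, ∑ q, (if g p = i then (if g q = j then Mz T O t i j else 0) else 0) := by
    intro i j
    rw [sum_mul_sum, sum_mul]
    refine sum_congr rfl fun p _ => ?_
    rw [sum_mul]
    refine sum_congr rfl fun q _ => ?_
    split_ifs <;> simp
  have e2 : ∑ i ∈ range 64, ∑ j ∈ range 64, (∑ p, if g p = i then (1 : ℝ) else 0) *
      (∑ q, if g q = j then (1 : ℝ) else 0) * Mz T O t i j
      = ∑ p, ∑ q, ∑ i ∈ range 64, ∑ j ∈ range 64,
        (if g p = i then (if g q = j then Mz T O t i j else 0) else 0) := by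
    rw [sum_congr rfl fun i _ => sum_congr rfl fun j _ => e1 i j]
    have e3 : ∀ i ∈ range 64, (∑ j ∈ range 64, ∑ p, ∑ q,
        (if g p = i then (if g q = j then Mz T O t i j else 0) else 0))
        = ∑ p, ∑ q, ∑ j ∈ range 64,
          (if g p = i then (if g q = j then Mz T O t i j else 0) else 0) := by
      intro i _
      rw [sum_comm]
      exact sum_congr rfl fun p _ => sum_comm
    rw [sum_congr rfl e3, sum_comm]
    exact sum_congr rfl fun p _ => sum_comm
  rw [e2]
  refine sum_congr rfl fun p _ => sum_congr rfl fun q _ => ?_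
  have e4 : ∀ i ∈ range 64, (∑ j ∈ range 64,
      (if g p = i then (if g q = j then Mz T O t i j else 0) else 0))
      = if g p = i then Mz T O t i (g q) else 0 := by
    intro i _
    split_ifs with h2
    · rw [sum_ite_eq, if_pos (mem_range.mpr (hg q))]
    · exact sum_const_zero
  rw [sum_congr rfl e4, sum_ite_eq, if_pos (mem_range.mpr (hg p))]

end Pool.Agent.U378.TM
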